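import Mathlib

set_option autoImplicit false

namespace Pool.Agent.MP_8ae77a_co

/-- A semilabeled binary tree of size `n`: a finite tree all of whose vertices have degree `1` or
`3`, together with a bijective labelling `lab` of its leaves (degree-1 vertices) by `Fin n`
(playing the role of `[n]`). -/
structure SemiTree (n : ℕ) where
  V : Type
  finV : Finite V
  G : SimpleGraph V
  isTree : G.IsTree
  deg : ∀ v, (G.neighborSet v).ncard = 1 ∨ (G.neighborSet v).ncard = 3
  lab : Fin n → V
  lab_inj : Function.Injective lab
  lab_range : ∀ v, (∃ i, lab i = v) ↔ (G.neighborSet v).ncard = 1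

/-- The set `𝔓(T)` of partitions (equivalence relations) of the label set obtained by deleting a
set `F` of edges of `T` and grouping the labels by the component in which they lie. -/
def parts {n : ℕ} (T : SemiTree n) : Set (Setoid (Fin n)) :=
  {s | ∃ F : Set (Sym2 T.V), F ⊆ T.G.edgeSet ∧
    ∀ a b, s a b ↔ (T.G.deleteEdges F).Reachable (T.lab a) (T.lab b)}

/-- The partitions of `[n]` with exactly `k` classes lying in `𝔓(T i)` for every `i`. -/
def common {n t : ℕ} (T : Fin t → SemiTree n) (k : ℕ) : Set (Setoid (Fin n)) :=
  {s | (∀ i, s ∈ parts (T i)) ∧ Nat.card (Quotient s) = k}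

/-- The quantity `s^{(t)}_{n,k}`: the minimum, over all collections of `t` semilabeled binary
trees of size `n`, of the number of common partitions with exactly `k` classes. -/
noncomputable def sMin (t n k : ℕ) : ℕ :=
  sInf {m | ∃ T : Fin t → SemiTree n, m = (common T k).ncard}

end Pool.Agent.MP_8ae77a_co
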