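import Pool.Agent.MP_8ae77a_co.Defs

set_option autoImplicit false

namespace Pool.Agent.MP_8ae77a_co

open SimpleGraph

/-- the caterpillar graph on `2n-2` vertices -/
def cat (N : ℕ) : SimpleGraph (Fin N) where
  Adj a b := (a.val < b.val ∧ a.val = 2 * (b.val / 2) - 1) ∨
    (b.val < a.val ∧ b.val = 2 * (a.val / 2) - 1)
  symm := ⟨fun a b h => by tauto⟩
  loopless := ⟨fun a h => by omega⟩

theorem cat_adj {N : ℕ} (a b : Fin N) : (cat N).Adj a b ↔
    (a.val < b.val ∧ a.val = 2 * (b.val / 2) - 1) ∨
    (b.val < a.val ∧ b.val = 2 * (a.val / 2) - 1) := Iff.rfl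

theorem cat_connected {N : ℕ} (hN : 0 < N) : (cat N).Connected := by
  have : Nonempty (Fin N) := ⟨⟨0, hN⟩⟩
  have key : ∀ m : ℕ, ∀ h : m < N, (cat N).Reachable ⟨0, hN⟩ ⟨m, h⟩ := by
    intro m
    induction m using Nat.strong_induction_on with
    | _ m ih =>
      intro h
      by_cases hm : m = 0
      · subst hm; exact Reachable.refl _
      · have h1 : 2 * (m / 2) - 1 < m := by omega
        refine (ih (2 * (m / 2) - 1) h1 (by omega)).trans (SimpleGraph.Adj.reachable ?_)
        rw [cat_adj]
        left
        exact ⟨h1, rfl⟩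
  refine ⟨fun a b => ?_⟩
  exact (key a.val a.2).symm.trans (key b.val b.2)

theorem cat_isTree {N : ℕ} (hN : 0 < N) : (cat N).IsTree := by
  rw [isTree_iff_connected_and_card]
  refine ⟨cat_connected hN, ?_⟩
  have h1 := (cat_connected hN).card_vert_le_card_edgeSet_add_one
  have h2 : Nat.card (cat N).edgeSet ≤ N - 1 := by
    let f : Fin (N - 1) → (cat N).edgeSet := fun i =>
      ⟨s(⟨2 * ((i.val + 1) / 2) - 1, by have := i.2; omega⟩, ⟨i.val + 1, by have := i.2; omega⟩), by
        rw [mem_edgeSet, cat_adj]
        refine Or.inl ⟨?_, rfl⟩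
        show 2 * ((i.val + 1) / 2) - 1 < i.val + 1
        omega⟩
    have hf : Function.Surjective f := by
      rintro ⟨e, he⟩
      induction e using Sym2.ind with
      | _ a b =>
        rw [mem_edgeSet, cat_adj] at he
        rcases he with ⟨h3, h4⟩ | ⟨h3, h4⟩
        · refine ⟨⟨b.val - 1, by have := b.2; omega⟩, ?_⟩
          simp only [f, Subtype.mk.injEq, Sym2.eq_iff]
          left
          constructor
          · apply Fin.ext
            have h5 : b.val - 1 + 1 = b.val := by omega
            simp only [h5]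
            exact h4.symm
          · apply Fin.ext
            simp only
            omega
        · refine ⟨⟨a.val - 1, by have := a.2; omega⟩, ?_⟩
          simp only [f, Subtype.mk.injEq, Sym2.eq_iff]
          right
          constructor
          · apply Fin.ext
            have h5 : a.val - 1 + 1 = a.val := by omega
            simp only [h5]
            exact h4.symm
          · apply Fin.ext
            simp only
            omega
    calc Nat.card (cat N).edgeSet ≤ Nat.card (Fin (N - 1)) := Nat.card_le_card_of_surjective f hf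
      _ = N - 1 := Nat.card_fin _
  rw [Nat.card_fin] at h1 ⊢
  omega

theorem cat_deg1 {N : ℕ} (hN : 2 ≤ N) (hNe : Even N) (v : Fin N)
    (hv : Even v.val ∨ v.val = N - 1) : ((cat N).neighborSet v).ncard = 1 := by
  rw [Set.ncard_eq_one]
  obtain ⟨k, hk⟩ := hNe
  by_cases h0 : v.val = 0
  · refine ⟨⟨1, by omega⟩, ?_⟩
    ext b
    rw [mem_neighborSet, cat_adj, Set.mem_singleton_iff, Fin.ext_iff]
    have := b.2
    simp only
    omega
  · refine ⟨⟨2 * (v.val / 2) - 1, by have := v.2; omega⟩, ?_⟩
    ext b
    rw [mem_neighborSet, cat_adj, Set.mem_singleton_iff, Fin.ext_iff]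
    have := b.2
    simp only
    rcases hv with ⟨j, hj⟩ | hv
    · omega
    · omega

theorem cat_deg3 {N : ℕ} (hNe : Even N) (v : Fin N)
    (hv : ¬ (Even v.val ∨ v.val = N - 1)) : ((cat N).neighborSet v).ncard = 3 := by
  push Not at hv
  obtain ⟨h1, h2⟩ := hv
  obtain ⟨k, hk⟩ := hNe
  rw [Nat.not_even_iff_odd] at h1
  obtain ⟨j, hj⟩ := h1
  have hvlt := v.2
  rw [Set.ncard_eq_three]
  refine ⟨⟨2 * (v.val / 2) - 1, by omega⟩, ⟨v.val + 1, by omega⟩, ⟨v.val + 2, by omega⟩,
    ?_, ?_, ?_, ?_⟩
  · rw [Ne, Fin.ext_iff]; simp only; omega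
  · rw [Ne, Fin.ext_iff]; simp only; omega
  · rw [Ne, Fin.ext_iff]; simp only; omega
  · ext b
    rw [mem_neighborSet, cat_adj, Set.mem_insert_iff, Set.mem_insert_iff, Set.mem_singleton_iff,
      Fin.ext_iff, Fin.ext_iff, Fin.ext_iff]
    have := b.2
    simp only
    omega

theorem exists_semiTree {n : ℕ} (hn : 2 ≤ n) : Nonempty (SemiTree n) := by
  have hNe : Even (2 * n - 2) := ⟨n - 1, by omega⟩
  have hN : 2 ≤ 2 * n - 2 := by omega
  refine ⟨{
    V := Fin (2 * n - 2)
    finV := inferInstance
    G := cat (2 * n - 2)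
    isTree := cat_isTree (by omega)
    deg := ?_
    lab := fun i => if h : i.val = n - 1 then ⟨2 * n - 2 - 1, by omega⟩ else ⟨2 * i.val, by
      have := i.2
      omega⟩
    lab_inj := ?_
    lab_range := ?_ }⟩
  · intro v
    by_cases hv : Even v.val ∨ v.val = 2 * n - 2 - 1
    · exact Or.inl (cat_deg1 hN hNe v hv)
    · exact Or.inr (cat_deg3 hNe v hv)
  · intro i j hij
    have hi := i.2
    have hj := j.2
    apply Fin.ext
    simp only at hij
    split_ifs at hij with h1 h2 h2 <;> simp only [Fin.mk.injEq] at hij <;> omega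
  · intro v
    constructor
    · rintro ⟨i, rfl⟩
      apply cat_deg1 hN hNe
      split_ifs with h1
      · right; rfl
      · left; exact ⟨i.val, by simp only; omega⟩
    · intro h
      by_cases hv : Even v.val ∨ v.val = 2 * n - 2 - 1
      · by_cases h2 : v.val = 2 * n - 2 - 1
        · refine ⟨⟨n - 1, by omega⟩, ?_⟩
          simp only [dite_true]
          exact Fin.ext h2.symm
        · obtain ⟨k, hk⟩ := hv.resolve_right h2
          have := v.2
          refine ⟨⟨k, by omega⟩, ?_⟩
          have h3 : ¬ k = n - 1 := by omega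
          simp only [h3, dite_false]
          apply Fin.ext
          simp only
          omega
      · rw [cat_deg3 hNe v hv] at h
        omega

end Pool.Agent.MP_8ae77a_co
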