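import Pool.Agent.MP_8ae77a_co.Sides

set_option autoImplicit false

namespace Pool.Agent.MP_8ae77a_co

open SimpleGraph

instance finite_setoid (n : ℕ) : Finite (Setoid (Fin n)) := by
  apply Finite.of_injective (fun s : Setoid (Fin n) => (fun a b => s a b : Fin n → Fin n → Prop))
  intro s t h
  ext a b
  exact iff_of_eq (congrFun (congrFun h a) b)

/-- Partitions obtained by deleting `E0` and the pendant edges of all labels outside `K`. -/
theorem cut {n : ℕ} (T : SemiTree n) (E0 : Set (Sym2 T.V)) (hE0 : E0 ⊆ T.G.edgeSet)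
    (K : Set (Fin n)) (s : Setoid (Fin n))
    (hs : ∀ a b, s a b ↔ a = b ∨
      (a ∈ K ∧ b ∈ K ∧ (T.G.deleteEdges E0).Reachable (T.lab a) (T.lab b))) :
    s ∈ parts T := by
  set F : Set (Sym2 T.V) := E0 ∪ {e | e ∈ T.G.edgeSet ∧ ∃ c, c ∉ K ∧ T.lab c ∈ e} with hF
  have hleaf : ∀ c, (T.G.neighborSet (T.lab c)).ncard = 1 := fun c =>
    (T.lab_range _).mp ⟨c, rfl⟩
  -- labels outside `K` are isolated
  have hiso : ∀ c, c ∉ K → ∀ y, (T.G.deleteEdges F).Reachable (T.lab c) y → y = T.lab c := by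
    intro c hc y hy
    rw [reachable_iff_reflTransGen] at hy
    induction hy with
    | refl => rfl
    | tail _ hyz ih =>
      rw [ih, deleteEdges_adj] at hyz
      exfalso
      exact hyz.2 (Or.inr ⟨hyz.1, c, hc, Sym2.mem_mk_left _ _⟩)
  refine ⟨F, ?_, ?_⟩
  · rintro e (he | he)
    · exact hE0 he
    · exact he.1
  · intro a b
    rw [hs]
    constructor
    · rintro (rfl | ⟨ha, hb, hab⟩)
      · exact Reachable.refl _
      · have key : ∀ w, (T.G.deleteEdges E0).Reachable (T.lab a) w →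
            ((∀ c, c ∉ K → T.lab c ≠ w) → (T.G.deleteEdges F).Reachable (T.lab a) w) ∧
            ((∃ c, c ∉ K ∧ T.lab c = w) → ∀ x, T.G.Adj w x →
              (T.G.deleteEdges F).Reachable (T.lab a) x) := by
          intro w hw
          rw [reachable_iff_reflTransGen] at hw
          induction hw with
          | refl =>
            refine ⟨fun _ => Reachable.refl _, ?_⟩
            rintro ⟨c, hc, hca⟩
            exact absurd (T.lab_inj hca ▸ ha) hc
          | tail _ hyz ih =>
            rename_i y z _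
            rw [deleteEdges_adj] at hyz
            obtain ⟨hyz, hyz'⟩ := hyz
            by_cases hy : ∃ c, c ∉ K ∧ T.lab c = y
            · have hz := ih.2 hy z hyz
              refine ⟨fun _ => hz, ?_⟩
              rintro ⟨c, hc, hcz⟩
              exfalso
              have h1 := hiso c hc (T.lab a) (by rw [hcz]; exact hz.symm)
              exact hc (T.lab_inj h1 ▸ ha)
            · have hy' : ∀ c, c ∉ K → T.lab c ≠ y := by
                intro c hc h; exact hy ⟨c, hc, h⟩
              have hry := ih.1 hy'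
              constructor
              · intro hz
                refine hry.trans (SimpleGraph.Adj.reachable ?_)
                rw [deleteEdges_adj]
                refine ⟨hyz, ?_⟩
                rintro (h1 | ⟨-, c, hc, h1⟩)
                · exact hyz' h1
                · rw [Sym2.mem_iff] at h1
                  rcases h1 with h1 | h1
                  · exact hy' c hc h1
                  · exact hz c hc h1
              · rintro ⟨c, hc, rfl⟩ x hx
                rw [neighbors_leaf (hleaf c) hyz.symm x hx]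
                exact hry
        refine (key _ hab).1 ?_
        intro c hc h
        exact hc (T.lab_inj h ▸ hb)
    · intro h
      by_cases ha : a ∈ K
      · by_cases hb : b ∈ K
        · right
          exact ⟨ha, hb, h.mono (deleteEdges_anti (by rw [hF]; exact Set.subset_union_left))⟩
        · left
          exact T.lab_inj (hiso b hb _ h.symm)
      · left
        exact (T.lab_inj (hiso a ha _ h)).symm

/-- `X` and `Y` are separated by an edge of `T`. -/
def Sep {n : ℕ} (T : SemiTree n) (X Y : Finset (Fin n)) : Prop :=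
  ∃ u v, T.G.Adj u v ∧ (∀ x ∈ X, T.lab x ∈ side T.G u v) ∧ (∀ y ∈ Y, T.lab y ∈ side T.G v u)

theorem Sep.mono {n : ℕ} {T : SemiTree n} {X Y X' Y' : Finset (Fin n)} (h : Sep T X Y)
    (hX : X' ⊆ X) (hY : Y' ⊆ Y) : Sep T X' Y' := by
  obtain ⟨u, v, h1, h2, h3⟩ := h
  exact ⟨u, v, h1, fun x hx => h2 x (hX hx), fun y hy => h3 y (hY hy)⟩

theorem Sep.disj {n : ℕ} {T : SemiTree n} {X Y : Finset (Fin n)} (h : Sep T X Y) :
    Disjoint X Y := by
  obtain ⟨u, v, h1, h2, h3⟩ := h
  rw [Finset.disjoint_left]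
  intro x hx hy
  exact side_disj T.isTree.isAcyclic h1 (h2 x hx) (h3 x hy)

theorem split {n : ℕ} (T : SemiTree n) (X Y : Finset (Fin n)) (hX : 2 ≤ X.card) :
    ∃ X' ⊆ X, ∃ Y' ⊆ Y, X.card ≤ 3 * X'.card ∧ Y.card ≤ 3 * Y'.card ∧ Sep T X' Y' := by
  classical
  have := T.finV
  have himg : ∀ Z : Finset (Fin n), (T.lab '' (Z : Set (Fin n))).ncard = Z.card := by
    intro Z
    rw [Set.ncard_image_of_injective _ T.lab_inj, Set.ncard_coe_finset]
  have hfil : ∀ (Z : Finset (Fin n)) (A : Set T.V),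
      ((T.lab '' (Z : Set (Fin n))) ∩ A).ncard = (Z.filter (fun x => T.lab x ∈ A)).card := by
    intro Z A
    rw [← himg]
    congr 1
    ext w
    simp only [Set.mem_inter_iff, Set.mem_image, Finset.mem_coe, Finset.coe_filter,
      Set.mem_ofPred_eq]
    constructor
    · rintro ⟨⟨x, hx, rfl⟩, hw⟩
      exact ⟨x, ⟨hx, hw⟩, rfl⟩
    · rintro ⟨x, ⟨hx, hw⟩, rfl⟩
      exact ⟨⟨x, hx, rfl⟩, hw⟩
  obtain ⟨x0, hx0⟩ : X.Nonempty := by
    rw [← Finset.card_pos]; omega
  have hV : ∃ u v, T.G.Adj u v := by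
    have h1 := (T.lab_range (T.lab x0)).mp ⟨x0, rfl⟩
    rw [Set.ncard_eq_one] at h1
    obtain ⟨a, ha⟩ := h1
    have h2 : a ∈ T.G.neighborSet (T.lab x0) := by rw [ha]; rfl
    exact ⟨_, a, h2⟩
  obtain ⟨u, v, huv, h1, h2⟩ := balanced T.isTree T.deg (T.lab '' (X : Set (Fin n))) (by
    rintro v ⟨x, -, rfl⟩
    exact (T.lab_range _).mp ⟨x, rfl⟩) (by rw [himg]; exact hX) hV
  have h3 := count_split T.isTree huv (T.lab '' (Y : Set (Fin n)))
  rw [himg, hfil] at h1 h2
  rw [himg, hfil, hfil] at h3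
  by_cases hc : Y.card ≤ 2 * (Y.filter (fun x => T.lab x ∈ side T.G v u)).card
  · refine ⟨X.filter (fun x => T.lab x ∈ side T.G u v), Finset.filter_subset _ _,
      Y.filter (fun x => T.lab x ∈ side T.G v u), Finset.filter_subset _ _, h1, by omega,
      u, v, huv, ?_, ?_⟩
    · intro x hx; exact (Finset.mem_filter.mp hx).2
    · intro x hx; exact (Finset.mem_filter.mp hx).2
  · refine ⟨X.filter (fun x => T.lab x ∈ side T.G v u), Finset.filter_subset _ _,
      Y.filter (fun x => T.lab x ∈ side T.G u v), Finset.filter_subset _ _, h2, by omega,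
      v, u, huv.symm, ?_, ?_⟩
    · intro x hx; exact (Finset.mem_filter.mp hx).2
    · intro x hx; exact (Finset.mem_filter.mp hx).2

theorem iterate {n t : ℕ} (T : Fin t → SemiTree n) (hn : 2 * 3 ^ t ≤ n) :
    ∀ j ≤ t, ∃ X Y : Finset (Fin n), n ≤ 3 ^ j * X.card ∧ n ≤ 3 ^ j * Y.card ∧
      ∀ i : Fin t, i.val < j → Sep (T i) X Y := by
  intro j
  induction j with
  | zero =>
    intro _
    exact ⟨Finset.univ, Finset.univ, by simp, by simp, fun i hi => absurd hi (by omega)⟩
  | succ j ih =>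
    intro hj
    obtain ⟨X, Y, h1, h2, h3⟩ := ih (by omega)
    have hX : 2 ≤ X.card := by
      have h4 : 3 ^ j ≤ 3 ^ t := Nat.pow_le_pow_right (by norm_num) (by omega)
      have h5 : 2 * 3 ^ j ≤ 3 ^ j * X.card := le_trans (by omega) (le_trans hn h1)
      have h6 : 0 < 3 ^ j := by positivity
      by_contra hc
      have h7 : X.card ≤ 1 := by omega
      have h8 : 3 ^ j * X.card ≤ 3 ^ j * 1 := Nat.mul_le_mul_left _ h7
      omega
    obtain ⟨X', hX', Y', hY', h4, h5, h6⟩ := split (T ⟨j, by omega⟩) X Y hX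
    refine ⟨X', Y', ?_, ?_, ?_⟩
    · calc n ≤ 3 ^ j * X.card := h1
        _ ≤ 3 ^ j * (3 * X'.card) := Nat.mul_le_mul_left _ h4
        _ = 3 ^ (j + 1) * X'.card := by ring
    · calc n ≤ 3 ^ j * Y.card := h2
        _ ≤ 3 ^ j * (3 * Y'.card) := Nat.mul_le_mul_left _ h5
        _ = 3 ^ (j + 1) * Y'.card := by ring
    · intro i hi
      by_cases hij : i.val = j
      · have : i = ⟨j, by omega⟩ := Fin.ext hij
        rw [this]
        exact h6
      · exact (h3 i (by omega)).mono hX' hY'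

/-- number of classes of a kernel -/
theorem card_ker {n : ℕ} (φ : Fin n → Fin n) (R : Finset (Fin n)) (hR : ∀ y, y ∈ R ↔ ∃ x, φ x = y) :
    Nat.card (Quotient (Setoid.ker φ)) = R.card := by
  rw [Nat.card_congr (Setoid.quotientKerEquivRange φ)]
  have : Set.range φ = (R : Set (Fin n)) := by
    ext y
    rw [Finset.mem_coe, hR]
    rfl
  rw [this]
  simp

theorem many {n t m : ℕ} (ht : 1 ≤ t) (hm : 2 ≤ m) (hn : 3 ^ t * m ≤ n)
    (T : Fin t → SemiTree n) :
    n.choose (n - 2 * m + 2 - 1) < (common T (n - 2 * m + 2)).ncard := by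
  classical
  have h3t : 3 ≤ 3 ^ t := by
    calc 3 = 3 ^ 1 := by norm_num
      _ ≤ 3 ^ t := Nat.pow_le_pow_right (by norm_num) ht
  have hn2 : 2 * 3 ^ t ≤ n := le_trans (by rw [mul_comm]; exact Nat.mul_le_mul_left _ hm) hn
  have h3m : 3 * m ≤ n := le_trans (Nat.mul_le_mul_right _ h3t) hn
  obtain ⟨X, Y, hX, hY, hsep⟩ := iterate T hn2 t le_rfl
  have hpos : 0 < 3 ^ t := by positivity
  have hXm : m ≤ X.card := Nat.le_of_mul_le_mul_left (le_trans hn hX) hpos
  have hYm : m ≤ Y.card := Nat.le_of_mul_le_mul_left (le_trans hn hY) hpos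
  obtain ⟨B1, hB1, hB1c⟩ := Finset.exists_subset_card_eq hXm
  obtain ⟨B2, hB2, hB2c⟩ := Finset.exists_subset_card_eq hYm
  have hsep' : ∀ i, Sep (T i) B1 B2 := fun i => (hsep i i.2).mono hB1 hB2
  have hdisj : Disjoint B1 B2 := (hsep' ⟨0, by omega⟩).disj
  obtain ⟨b1, hb1, b1', hb1', hb11⟩ := Finset.one_lt_card.mp (show 1 < B1.card by omega)
  obtain ⟨b2, hb2, b2', hb2', hb22⟩ := Finset.one_lt_card.mp (show 1 < B2.card by omega)
  have hnB : ∀ x, x ∈ B1 → x ∉ B2 := fun x hx => Finset.disjoint_left.mp hdisj hx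
  -- the nontrivial partition
  set φ : Fin n → Fin n := fun a => if a ∈ B1 then b1 else if a ∈ B2 then b2 else a with hφ
  have hφ1 : ∀ a ∈ B1, φ a = b1 := fun a ha => by simp [hφ, ha]
  have hφ2 : ∀ a ∈ B2, φ a = b2 := fun a ha => by
    have : a ∉ B1 := fun h => hnB a h ha
    simp [hφ, ha, this]
  have hφ3 : ∀ a, a ∉ B1 → a ∉ B2 → φ a = a := fun a h1 h2 => by simp [hφ, h1, h2]
  have hb12 : b1 ≠ b2 := fun h => hnB b1 hb1 (h ▸ hb2)
  have hPmem : Setoid.ker φ ∈ common T (n - 2 * m + 2) := by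
    refine ⟨fun i => ?_, ?_⟩
    · obtain ⟨u, v, huv, h1, h2⟩ := hsep' i
      apply cut (T i) {s(u, v)} (by rw [Set.singleton_subset_iff]; exact huv)
        ((B1 ∪ B2 : Finset (Fin n)) : Set (Fin n))
      intro a b
      have hr1 : ∀ x ∈ B1, ((T i).G.deleteEdges {s(u, v)}).Reachable v ((T i).lab x) := h1
      have hr2 : ∀ x ∈ B2, ((T i).G.deleteEdges {s(u, v)}).Reachable u ((T i).lab x) := by
        intro x hx
        have := h2 x hx
        have h3 : ((T i).G.deleteEdges {s(v, u)}).Reachable u ((T i).lab x) := this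
        rwa [Sym2.eq_swap] at h3
      have hnr : ∀ x ∈ B1, ∀ y ∈ B2,
          ¬ ((T i).G.deleteEdges {s(u, v)}).Reachable ((T i).lab x) ((T i).lab y) := by
        intro x hx y hy h
        have h4 : u ∈ side (T i).G u v := ((hr1 x hx).trans h).trans (hr2 y hy).symm
        exact not_mem_side (T i).isTree.isAcyclic huv h4
      have hK : ∀ x, x ∈ ((B1 ∪ B2 : Finset (Fin n)) : Set (Fin n)) ↔ x ∈ B1 ∨ x ∈ B2 := by
        intro x; simp
      rw [Setoid.ker_def, hK, hK]
      by_cases ha1 : a ∈ B1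
      · rw [hφ1 a ha1]
        by_cases hb1' : b ∈ B1
        · rw [hφ1 b hb1']
          exact ⟨fun _ => Or.inr ⟨Or.inl ha1, Or.inl hb1', (hr1 a ha1).symm.trans (hr1 b hb1')⟩,
            fun _ => rfl⟩
        · by_cases hb2' : b ∈ B2
          · rw [hφ2 b hb2']
            refine ⟨fun h => absurd h hb12, ?_⟩
            rintro (h | ⟨-, -, h⟩)
            · exact absurd (h ▸ ha1) hb1'
            · exact absurd h (hnr a ha1 b hb2')
          · rw [hφ3 b hb1' hb2']
            refine ⟨fun h => absurd (h ▸ hb1) hb1', ?_⟩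
            rintro (h | ⟨-, h | h, -⟩)
            · exact absurd (h ▸ ha1) hb1'
            · exact absurd h hb1'
            · exact absurd h hb2'
      · by_cases ha2 : a ∈ B2
        · rw [hφ2 a ha2]
          by_cases hb1' : b ∈ B1
          · rw [hφ1 b hb1']
            refine ⟨fun h => absurd h.symm hb12, ?_⟩
            rintro (h | ⟨-, -, h⟩)
            · exact absurd (h ▸ hb1') ha1
            · exact absurd h.symm (hnr b hb1' a ha2)
          · by_cases hb2' : b ∈ B2
            · rw [hφ2 b hb2']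
              exact ⟨fun _ => Or.inr ⟨Or.inr ha2, Or.inr hb2',
                (hr2 a ha2).symm.trans (hr2 b hb2')⟩, fun _ => rfl⟩
            · rw [hφ3 b hb1' hb2']
              refine ⟨fun h => absurd (h ▸ hb2) hb2', ?_⟩
              rintro (h | ⟨-, h | h, -⟩)
              · exact absurd (h ▸ ha2) hb2'
              · exact absurd h hb1'
              · exact absurd h hb2'
        · rw [hφ3 a ha1 ha2]
          by_cases hb1' : b ∈ B1
          · rw [hφ1 b hb1']
            refine ⟨fun h => absurd (h ▸ hb1) ha1, ?_⟩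
            rintro (h | ⟨h | h, -, -⟩)
            · exact absurd (h ▸ hb1') ha1
            · exact absurd h ha1
            · exact absurd h ha2
          · by_cases hb2' : b ∈ B2
            · rw [hφ2 b hb2']
              refine ⟨fun h => absurd (h ▸ hb2) ha2, ?_⟩
              rintro (h | ⟨h | h, -, -⟩)
              · exact absurd (h ▸ hb2') ha2
              · exact absurd h ha1
              · exact absurd h ha2
            · rw [hφ3 b hb1' hb2']
              refine ⟨fun h => Or.inl h, ?_⟩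
              rintro (h | ⟨h | h, -, -⟩)
              · exact h
              · exact absurd h ha1
              · exact absurd h ha2
    · rw [card_ker φ (insert b1 (insert b2 (B1 ∪ B2)ᶜ))]
      · rw [Finset.card_insert_of_notMem, Finset.card_insert_of_notMem, Finset.card_compl,
          Finset.card_union_of_disjoint hdisj, hB1c, hB2c, Fintype.card_fin]
        · omega
        · simp [hb2]
        · simp [hb1, hb12]
      · intro y
        simp only [Finset.mem_insert, Finset.mem_compl, Finset.mem_union, not_or]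
        constructor
        · rintro (h | h | ⟨h1, h2⟩)
          · exact ⟨b1, (hφ1 b1 hb1).trans h.symm⟩
          · exact ⟨b2, (hφ2 b2 hb2).trans h.symm⟩
          · exact ⟨y, hφ3 y h1 h2⟩
        · rintro ⟨x, hx⟩
          by_cases h1 : x ∈ B1
          · left; rw [← hx, hφ1 x h1]
          · by_cases h2 : x ∈ B2
            · right; left; rw [← hx, hφ2 x h2]
            · right; right
              rw [hφ3 x h1 h2] at hx
              exact hx ▸ ⟨h1, h2⟩
  -- the trivial partitions
  have hz : ∀ Z : Finset (Fin n), Z.card = n - 2 * m + 2 - 1 → ∃ z0 z1, z0 ∉ Z ∧ z1 ∉ Z ∧ z0 ≠ z1 := by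
    intro Z hZ
    have h1 : 1 < (Zᶜ).card := by
      rw [Finset.card_compl, Fintype.card_fin, hZ]; omega
    obtain ⟨z0, hz0, z1, hz1, h01⟩ := Finset.one_lt_card.mp h1
    exact ⟨z0, z1, by simpa using hz0, by simpa using hz1, h01⟩
  set ψ : Finset (Fin n) → Fin n → Fin n → Fin n := fun Z z0 a => if a ∈ Z then a else z0 with hψ
  have hψ1 : ∀ Z z0 a, a ∈ Z → ψ Z z0 a = a := fun Z z0 a h => by simp [hψ, h]
  have hψ2 : ∀ Z z0 a, a ∉ Z → ψ Z z0 a = z0 := fun Z z0 a h => by simp [hψ, h]
  -- choose a base point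
  let base : Finset (Fin n) → Fin n := fun Z => if h : ∃ z, z ∉ Z then h.choose else b1
  have hbase : ∀ Z : Finset (Fin n), Z.card = n - 2 * m + 2 - 1 → base Z ∉ Z := by
    intro Z hZ
    obtain ⟨z0, -, hz0, -⟩ := hz Z hZ
    have h : ∃ z, z ∉ Z := ⟨z0, hz0⟩
    have : base Z = h.choose := dif_pos h
    rw [this]
    exact h.choose_spec
  -- the relation
  have hrel : ∀ Z : Finset (Fin n), Z.card = n - 2 * m + 2 - 1 → ∀ a b,
      Setoid.ker (ψ Z (base Z)) a b ↔ a = b ∨ (a ∉ Z ∧ b ∉ Z) := by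
    intro Z hZ a b
    rw [Setoid.ker_def]
    by_cases ha : a ∈ Z
    · rw [hψ1 _ _ _ ha]
      by_cases hb : b ∈ Z
      · rw [hψ1 _ _ _ hb]
        exact ⟨Or.inl, fun h => h.elim id (fun h => absurd ha h.1)⟩
      · rw [hψ2 _ _ _ hb]
        refine ⟨fun h => absurd (h ▸ ha) (hbase Z hZ), ?_⟩
        rintro (h | h)
        · exact absurd (h ▸ ha) hb
        · exact absurd ha h.1
    · rw [hψ2 _ _ _ ha]
      by_cases hb : b ∈ Z
      · rw [hψ1 _ _ _ hb]
        refine ⟨fun h => absurd (h ▸ hb) (hbase Z hZ), ?_⟩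
        rintro (h | h)
        · exact absurd (h ▸ hb) ha
        · exact absurd hb h.2
      · rw [hψ2 _ _ _ hb]
        exact ⟨fun _ => Or.inr ⟨ha, hb⟩, fun _ => rfl⟩
  have hcard : 1 ≤ n - 2 * m + 2 - 1 := by omega
  have htriv : ∀ Z : Finset (Fin n), Z.card = n - 2 * m + 2 - 1 →
      Setoid.ker (ψ Z (base Z)) ∈ common T (n - 2 * m + 2) := by
    intro Z hZ
    refine ⟨fun i => ?_, ?_⟩
    · apply cut (T i) ∅ (Set.empty_subset _) ((Z : Set (Fin n))ᶜ)
      intro a b
      rw [hrel Z hZ, deleteEdges_empty]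
      simp only [Set.mem_compl_iff, Finset.mem_coe]
      constructor
      · rintro (h | ⟨h1, h2⟩)
        · exact Or.inl h
        · exact Or.inr ⟨h1, h2, (T i).isTree.connected.preconnected _ _⟩
      · rintro (h | ⟨h1, h2, -⟩)
        · exact Or.inl h
        · exact Or.inr ⟨h1, h2⟩
    · rw [card_ker _ (insert (base Z) Z)]
      · rw [Finset.card_insert_of_notMem (hbase Z hZ), hZ]
        omega
      · intro y
        rw [Finset.mem_insert]
        constructor
        · rintro (rfl | h)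
          · exact ⟨base Z, hψ2 _ _ _ (hbase Z hZ)⟩
          · exact ⟨y, hψ1 _ _ _ h⟩
        · rintro ⟨x, hx⟩
          by_cases h : x ∈ Z
          · rw [hψ1 _ _ _ h] at hx
            exact Or.inr (hx ▸ h)
          · rw [hψ2 _ _ _ h] at hx
            exact Or.inl hx.symm
  have hinj : Set.InjOn (fun Z : Finset (Fin n) => Setoid.ker (ψ Z (base Z)))
      ((Finset.univ : Finset (Fin n)).powersetCard (n - 2 * m + 2 - 1) : Set (Finset (Fin n))) := by
    have hsub : ∀ Z Z' : Finset (Fin n), Z.card = n - 2 * m + 2 - 1 → Z'.card = n - 2 * m + 2 - 1 →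
        Setoid.ker (ψ Z (base Z)) = Setoid.ker (ψ Z' (base Z')) → Z' ⊆ Z := by
      intro Z Z' hZ hZ' h x hx
      by_contra hxZ
      obtain ⟨z0, z1, hz0, hz1, h01⟩ := hz Z hZ
      obtain ⟨y, hy, hyx⟩ : ∃ y, y ∉ Z ∧ x ≠ y := by
        by_cases hx0 : x = z0
        · exact ⟨z1, hz1, hx0 ▸ h01⟩
        · exact ⟨z0, hz0, hx0⟩
      have h1 : Setoid.ker (ψ Z (base Z)) x y := (hrel Z hZ x y).mpr (Or.inr ⟨hxZ, hy⟩)
      rw [h] at h1
      rcases (hrel Z' hZ' x y).mp h1 with h2 | ⟨h2, -⟩
      · exact hyx h2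
      · exact h2 hx
    intro Z hZ Z' hZ' h
    rw [Finset.mem_coe, Finset.mem_powersetCard_univ] at hZ hZ'
    exact Finset.Subset.antisymm (hsub Z' Z hZ' hZ h.symm) (hsub Z Z' hZ hZ' h)
  have hnotin : Setoid.ker φ ∉ (fun Z : Finset (Fin n) => Setoid.ker (ψ Z (base Z))) ''
      ((Finset.univ : Finset (Fin n)).powersetCard (n - 2 * m + 2 - 1) : Set (Finset (Fin n))) := by
    rintro ⟨Z, hZ, h⟩
    rw [Finset.mem_coe, Finset.mem_powersetCard_univ] at hZ
    simp only at h
    have h1 : Setoid.ker φ b1 b1' := by rw [Setoid.ker_def, hφ1 b1 hb1, hφ1 b1' hb1']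
    have h2 : Setoid.ker φ b2 b2' := by rw [Setoid.ker_def, hφ2 b2 hb2, hφ2 b2' hb2']
    rw [← h] at h1 h2
    have h3 : b1 ∉ Z := ((hrel Z hZ _ _).mp h1).elim (fun h => absurd h hb11) (fun h => h.1)
    have h4 : b2 ∉ Z := ((hrel Z hZ _ _).mp h2).elim (fun h => absurd h hb22) (fun h => h.1)
    have h5 : Setoid.ker (ψ Z (base Z)) b1 b2 := (hrel Z hZ _ _).mpr (Or.inr ⟨h3, h4⟩)
    rw [h, Setoid.ker_def, hφ1 b1 hb1, hφ2 b2 hb2] at h5
    exact hb12 h5
  have hsubset : insert (Setoid.ker φ) ((fun Z : Finset (Fin n) => Setoid.ker (ψ Z (base Z))) ''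
      ((Finset.univ : Finset (Fin n)).powersetCard (n - 2 * m + 2 - 1) : Set (Finset (Fin n)))) ⊆
      common T (n - 2 * m + 2) := by
    rintro s (rfl | ⟨Z, hZ, rfl⟩)
    · exact hPmem
    · rw [Finset.mem_coe, Finset.mem_powersetCard_univ] at hZ
      exact htriv Z hZ
  have hle := Set.ncard_le_ncard hsubset (Set.toFinite _)
  rw [Set.ncard_insert_of_notMem hnotin (Set.toFinite _), hinj.ncard_image,
    Set.ncard_coe_finset, Finset.card_powersetCard, Finset.card_univ, Fintype.card_fin] at hle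
  omega

end Pool.Agent.MP_8ae77a_co
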