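import Pool.Agent.MP_8ae77a_co.Defs

set_option autoImplicit false

namespace Pool.Agent.MP_8ae77a_co

open SimpleGraph

variable {V : Type} {G : SimpleGraph V}

/-- The side of `v` when the edge `uv` is deleted. -/
def side (G : SimpleGraph V) (u v : V) : Set V := {w | (G.deleteEdges {s(u, v)}).Reachable v w}

theorem self_mem_side (u v : V) : v ∈ side G u v := Reachable.refl v

theorem step_side {u v y z : V} (hy : y ∈ side G u v) (hyz : G.Adj y z)
    (hne : s(y, z) ≠ s(u, v)) : z ∈ side G u v := by
  have h1 : (G.deleteEdges {s(u, v)}).Adj y z := by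
    rw [deleteEdges_adj]
    exact ⟨hyz, fun h => hne h⟩
  exact Reachable.trans hy h1.reachable

theorem not_mem_side (hG : G.IsAcyclic) {u v : V} (h : G.Adj u v) : u ∉ side G u v := by
  intro hu
  have h1 := isAcyclic_iff_forall_adj_isBridge.mp hG h
  rw [isBridge_iff] at h1
  exact h1 (Reachable.symm hu)

theorem side_union (hG : G.Connected) {u v : V} (w : V) :
    w ∈ side G u v ∨ w ∈ side G v u := by
  have h1 : G.Reachable v w := hG.preconnected v w
  rw [reachable_iff_reflTransGen] at h1
  induction h1 with
  | refl => exact Or.inl (self_mem_side u v)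
  | tail _ hyz ih =>
    rename_i y z _
    by_cases he : s(y, z) = s(u, v)
    · rw [Sym2.eq_iff] at he
      rcases he with ⟨-, rfl⟩ | ⟨-, rfl⟩
      · exact Or.inl (self_mem_side _ _)
      · exact Or.inr (self_mem_side _ _)
    · rcases ih with ih | ih
      · exact Or.inl (step_side ih hyz he)
      · exact Or.inr (step_side ih hyz (by rwa [Sym2.eq_swap (a := v)]))

theorem side_disj (hG : G.IsAcyclic) {u v w : V} (h : G.Adj u v) (h1 : w ∈ side G u v) :
    w ∉ side G v u := by
  intro h2
  have h3 : (G.deleteEdges {s(u, v)}).Reachable u w := by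
    have : (G.deleteEdges {s(v, u)}).Reachable u w := h2
    rwa [Sym2.eq_swap] at this
  exact not_mem_side hG h (Reachable.trans h1 h3.symm)

/-- Decomposition of a side at its root. -/
theorem side_sub {u v w : V} (h : w ∈ side G u v) :
    w = v ∨ ∃ x, G.Adj v x ∧ x ≠ u ∧ w ∈ side G v x := by
  have h1 : (G.deleteEdges {s(u, v)}).Reachable v w := h
  rw [reachable_iff_reflTransGen] at h1
  induction h1 with
  | refl => exact Or.inl rfl
  | tail hvy hyz ih =>
    rename_i y z
    have ih := ih (by rw [← reachable_iff_reflTransGen] at hvy; exact hvy)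
    rw [deleteEdges_adj] at hyz
    obtain ⟨hyz, hne⟩ := hyz
    rcases ih with rfl | ⟨x, hvx, hxu, hyx⟩
    · right
      refine ⟨z, hyz, ?_, self_mem_side _ _⟩
      rintro rfl
      exact hne (by rw [Set.mem_singleton_iff]; exact Sym2.eq_swap)
    · by_cases he : s(y, z) = s(v, x)
      · rw [Sym2.eq_iff] at he
        rcases he with ⟨-, rfl⟩ | ⟨-, rfl⟩
        · exact Or.inr ⟨z, hvx, hxu, self_mem_side _ _⟩
        · exact Or.inl rfl
      · exact Or.inr ⟨x, hvx, hxu, step_side hyx hyz he⟩

theorem side_mono (hG : G.IsAcyclic) {u v x w : V} (hvx : G.Adj v x) (hxu : x ≠ u)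
    (h : w ∈ side G v x) : w ∈ side G u v := by
  have h1 : (G.deleteEdges {s(v, x)}).Reachable x w := h
  rw [reachable_iff_reflTransGen] at h1
  induction h1 with
  | refl =>
    refine step_side (self_mem_side u v) hvx ?_
    intro he
    rw [Sym2.eq_iff] at he
    rcases he with ⟨h2, h3⟩ | ⟨h2, h3⟩
    · rw [h3] at hvx
      exact hvx.ne rfl
    · exact hxu h3
  | tail hxy hyz ih =>
    rename_i y z
    rw [← reachable_iff_reflTransGen] at hxy
    have ih := ih hxy
    have hz : (G.deleteEdges {s(v, x)}).Reachable x z := hxy.trans hyz.reachable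
    rw [deleteEdges_adj] at hyz
    obtain ⟨hyz, hne⟩ := hyz
    refine step_side ih hyz ?_
    intro he
    rw [Sym2.eq_iff] at he
    rcases he with ⟨h2, h3⟩ | ⟨h2, h3⟩
    · -- z = v
      rw [h3] at hz
      exact not_mem_side hG hvx hz
    · -- y = v
      rw [h2] at hxy
      exact not_mem_side hG hvx hxy

theorem neighbors_leaf {v u : V} (h : (G.neighborSet v).ncard = 1) (hu : G.Adj v u) (x : V)
    (hx : G.Adj v x) : x = u := by
  rw [Set.ncard_eq_one] at h
  obtain ⟨a, ha⟩ := h
  have h1 : x ∈ G.neighborSet v := hx
  have h2 : u ∈ G.neighborSet v := hu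
  rw [ha, Set.mem_singleton_iff] at h1 h2
  rw [h1, h2]

theorem side_leaf {u v : V} (h : (G.neighborSet v).ncard = 1) (hu : G.Adj v u) :
    side G u v = {v} := by
  ext w
  constructor
  · intro hw
    rcases side_sub hw with h1 | ⟨x, hvx, hxu, -⟩
    · exact h1
    · exact absurd (neighbors_leaf h hu x hvx) hxu
  · rintro rfl
    exact self_mem_side _ _

theorem count_split [Finite V] (hG : G.IsTree) {u v : V} (h : G.Adj u v) (X : Set V) :
    (X ∩ side G u v).ncard + (X ∩ side G v u).ncard = X.ncard := by
  rw [← Set.ncard_union_eq]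
  · congr 1
    ext w
    constructor
    · rintro (⟨h1, -⟩ | ⟨h1, -⟩) <;> exact h1
    · intro hw
      rcases side_union hG.connected (u := u) (v := v) w with h1 | h1
      · exact Or.inl ⟨hw, h1⟩
      · exact Or.inr ⟨hw, h1⟩
  · rw [Set.disjoint_left]
    rintro w ⟨-, h1⟩ ⟨-, h2⟩
    exact side_disj hG.isAcyclic h h1 h2

theorem ncard_pair_le' (a b : V) : ({a, b} : Set V).ncard ≤ 2 := by
  have h1 := Set.ncard_insert_le a {b}
  rw [Set.ncard_singleton] at h1
  exact h1

/-- A balanced edge. -/
theorem balanced [Finite V] (hG : G.IsTree)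
    (hdeg : ∀ v, (G.neighborSet v).ncard = 1 ∨ (G.neighborSet v).ncard = 3) (X : Set V)
    (hXl : ∀ v ∈ X, (G.neighborSet v).ncard = 1) (hX : 2 ≤ X.ncard) (hV : ∃ u v, G.Adj u v) :
    ∃ u v, G.Adj u v ∧ X.ncard ≤ 3 * (X ∩ side G u v).ncard ∧
      X.ncard ≤ 3 * (X ∩ side G v u).ncard := by
  have key : ∀ n : ℕ, ∀ u v, G.Adj u v → (side G u v).ncard = n →
      X.ncard ≤ 3 * (X ∩ side G u v).ncard →
      ∃ u v, G.Adj u v ∧ X.ncard ≤ 3 * (X ∩ side G u v).ncard ∧
      X.ncard ≤ 3 * (X ∩ side G v u).ncard := by
    intro n
    induction n using Nat.strong_induction_on with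
    | _ n ih =>
      intro u v huv hn hW
      by_cases hc : X.ncard ≤ 3 * (X ∩ side G v u).ncard
      · exact ⟨u, v, huv, hW, hc⟩
      · have hsum := count_split hG huv X
        rcases hdeg v with hv | hv
        · -- leaf
          exfalso
          rw [side_leaf hv huv.symm] at hsum
          have : (X ∩ {v}).ncard ≤ 1 := by
            calc (X ∩ {v}).ncard ≤ ({v} : Set V).ncard :=
                  Set.ncard_le_ncard Set.inter_subset_right (Set.toFinite _)
              _ = 1 := Set.ncard_singleton v
          omega
        · -- degree 3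
          obtain ⟨a, b, hab⟩ : ∃ a b, G.neighborSet v = {u, a, b} := by
            have hu : u ∈ G.neighborSet v := huv.symm
            rw [Set.ncard_eq_three] at hv
            obtain ⟨x, y, z, -, -, -, hxyz⟩ := hv
            rw [hxyz] at hu
            rcases hu with rfl | rfl | rfl
            · exact ⟨y, z, hxyz⟩
            · exact ⟨x, z, by rw [hxyz]; exact Set.insert_comm _ _ _⟩
            · refine ⟨x, y, ?_⟩
              rw [hxyz]
              ext w
              simp only [Set.mem_insert_iff, Set.mem_singleton_iff]
              tauto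
          have hab_ne : u ≠ a ∧ u ≠ b := by
            rw [hab] at hv
            refine ⟨?_, ?_⟩
            · rintro rfl
              have : ({u, u, b} : Set V).ncard ≤ 2 := by
                rw [Set.insert_eq_of_mem (Set.mem_insert _ _)]
                exact ncard_pair_le' _ _
              omega
            · rintro rfl
              have : ({u, a, u} : Set V).ncard ≤ 2 := by
                rw [Set.insert_eq_of_mem (by simp)]
                exact ncard_pair_le' _ _
              omega
          have hva : G.Adj v a := by
            have : a ∈ G.neighborSet v := by rw [hab]; simp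
            exact this
          have hvb : G.Adj v b := by
            have : b ∈ G.neighborSet v := by rw [hab]; simp
            exact this
          have hvX : v ∉ X := by
            intro h
            have h1 := hXl v h
            omega
          have hcount : (X ∩ side G u v).ncard ≤
              (X ∩ side G v a).ncard + (X ∩ side G v b).ncard := by
            refine le_trans (Set.ncard_le_ncard ?_ (Set.toFinite _)) (Set.ncard_union_le _ _)
            rintro w ⟨hwX, hw⟩
            rcases side_sub hw with rfl | ⟨x, hvx, hxu, hwx⟩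
            · exact absurd hwX hvX
            · have hx : x ∈ G.neighborSet v := hvx
              rw [hab] at hx
              rcases hx with rfl | rfl | rfl
              · exact absurd rfl hxu
              · exact Or.inl ⟨hwX, hwx⟩
              · exact Or.inr ⟨hwX, hwx⟩
          have hlt : ∀ x, G.Adj v x → x ≠ u → (side G v x).ncard < n := by
            intro x hx hxu
            rw [← hn]
            apply Set.ncard_lt_ncard _ (Set.toFinite _)
            refine ⟨fun w hw => side_mono hG.isAcyclic hx hxu hw, fun h => ?_⟩
            exact not_mem_side hG.isAcyclic hx (h (self_mem_side u v))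
          by_cases hca : X.ncard ≤ 3 * (X ∩ side G v a).ncard
          · exact ih _ (hlt a hva hab_ne.1.symm) v a hva rfl hca
          · have hcb : X.ncard ≤ 3 * (X ∩ side G v b).ncard := by omega
            exact ih _ (hlt b hvb hab_ne.2.symm) v b hvb rfl hcb
  obtain ⟨u, v, huv⟩ := hV
  have hsum := count_split hG huv X
  by_cases hc : X.ncard ≤ 3 * (X ∩ side G u v).ncard
  · exact key _ u v huv rfl hc
  · exact key _ v u huv.symm rfl (by omega)

end Pool.Agent.MP_8ae77a_co
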